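import Pool.Agent.Helper34.CM.Stm
import Pool.Agent.W280.MO.ES

set_option autoImplicit false

/-!
# Task ES for completely multiplicative weights: the Euler product sum is small
-/

namespace Pool.Agent.Helper77.CM

open Finset Filter Topology
open scoped Classical
open Pool.Agent.W76.MO Pool.Agent.Helper34.CM

/-- the completely multiplicative extension as a monoid homomorphism -/
noncomputable def cmpHom (G : ℕ → ℝ) : ℕ →* ℝ where
  toFun n := if n = 0 then 0 else Helper34.CM.cmp G n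
  map_one' := by simp [cmp_one]
  map_mul' m n := by
    rcases Nat.eq_zero_or_pos m with rfl | hm
    · simp
    rcases Nat.eq_zero_or_pos n with rfl | hn
    · simp
    have h1 : m * n ≠ 0 := (Nat.mul_pos hm hn).ne'
    simp only [h1, hm.ne', hn.ne', if_false]
    exact cmp_mul G hm.ne' hn.ne'

theorem cmpHom_apply (G : ℕ → ℝ) {n : ℕ} (hn : n ≠ 0) : cmpHom G n = Helper34.CM.cmp G n := by
  change (if n = 0 then 0 else Helper34.CM.cmp G n) = Helper34.CM.cmp G n
  rw [if_neg hn]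

theorem cmp_mul_fun (G H : ℕ → ℝ) (n : ℕ) : Helper34.CM.cmp (fun p => G p * H p) n = Helper34.CM.cmp G n * Helper34.CM.cmp H n := by
  unfold Helper34.CM.cmp
  exact List.prod_map_mul

/-- finite sums of a completely multiplicative function over numbers composed of primes of `P` -/
theorem sum_le_euler {a : ℕ → ℝ} {P F : Finset ℕ} (hP : ∀ p ∈ P, p.Prime)
    (ha0 : ∀ p, 0 ≤ a p) (ha : ∀ p ∈ P, a p ≤ 1 / 2)
    (hF : ∀ t ∈ F, 2 ≤ t ∧ ∀ p, p.Prime → p ∣ t → p ∈ P) :
    ∑ t ∈ F, Helper34.CM.cmp a t + 1 ≤ ∏ p ∈ P, (1 + 2 * a p) := by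
  set b : ℕ → ℝ := fun p => if p ∈ P then a p else 0 with hb
  have hb0 : ∀ p, 0 ≤ b p := fun p => by
    simp only [hb]; split_ifs
    · exact ha0 p
    · exact le_rfl
  have hb1 : ∀ p, b p ≤ 1 / 2 := fun p => by
    simp only [hb]; split_ifs with h
    · exact ha p h
    · norm_num
  set f := cmpHom b with hf
  have hfp : ∀ p : ℕ, p.Prime → f p = b p := fun p hp => by
    rw [hf, cmpHom_apply b hp.ne_zero, cmp_prime b hp]
  have hlt : ∀ {p : ℕ}, p.Prime → ‖f p‖ < 1 := by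
    intro p hp
    rw [hfp p hp, Real.norm_eq_abs, abs_of_nonneg (hb0 p)]
    have := hb1 p
    linarith
  obtain ⟨-, hsum⟩ := EulerProduct.summable_and_hasSum_factoredNumbers_prod_filter_prime_geometric
    hlt P
  have hnn : ∀ n : ℕ, 0 ≤ f n := by
    intro n
    rcases Nat.eq_zero_or_pos n with rfl | hn
    · change (0 : ℝ) ≤ if (0 : ℕ) = 0 then 0 else Helper34.CM.cmp b 0
      simp
    · rw [hf, cmpHom_apply b hn.ne']
      exact cmp_nonneg n fun p _ _ => hb0 p
  have h1F : (1 : ℕ) ∉ F := fun h => by have := (hF 1 h).1; omega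
  have hmem : ∀ t ∈ insert 1 F, t ∈ Nat.factoredNumbers P := by
    intro t ht
    rw [Nat.mem_factoredNumbers']
    rcases Finset.mem_insert.1 ht with rfl | ht
    · intro p hp hp1
      exact absurd (Nat.dvd_one.1 hp1) hp.one_lt.ne'
    · exact (hF t ht).2
  have hle : ∑ t ∈ insert 1 F, f t ≤ ∏ p ∈ P with p.Prime, (1 - f p)⁻¹ := by
    have h2 := sum_le_hasSum ((insert 1 F).attach.image
      (fun t => (⟨t.1, hmem t.1 t.2⟩ : Nat.factoredNumbers P))) (fun i _ => hnn i) hsum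
    refine le_trans (le_of_eq ?_) h2
    rw [Finset.sum_image]
    · exact (Finset.sum_attach (insert 1 F) (fun t => f t)).symm
    · intro x _ y _ hxy
      have h9 : x.1 = y.1 := congrArg (fun z : Nat.factoredNumbers P => z.1) hxy
      exact Subtype.ext h9
  rw [Finset.sum_insert h1F, map_one] at hle
  have hfil : P.filter Nat.Prime = P := Finset.filter_true_of_mem hP
  rw [hfil] at hle
  have h3 : ∑ t ∈ F, f t = ∑ t ∈ F, Helper34.CM.cmp a t := by
    refine Finset.sum_congr rfl fun t ht => ?_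
    obtain ⟨h4, h5⟩ := hF t ht
    rw [hf, cmpHom_apply b (by omega)]
    refine cmp_congr t fun p hp hpt => ?_
    exact if_pos (h5 p hp hpt)
  have h6 : ∏ p ∈ P, (1 - f p)⁻¹ ≤ ∏ p ∈ P, (1 + 2 * a p) := by
    refine Finset.prod_le_prod (fun p hp => ?_) (fun p hp => ?_)
    · rw [hfp p (hP p hp)]
      have := hb1 p
      exact inv_nonneg.2 (by linarith)
    · have e : b p = a p := by simp only [hb, hp, if_true]
      rw [hfp p (hP p hp), e]
      have h7 := ha p hp
      have h8 := ha0 p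
      rw [inv_le_iff_one_le_mul₀ (by linarith)]
      nlinarith
  rw [h3] at hle
  linarith

theorem t_ES : T_ESM := by
  intro E hGB η hη
  obtain ⟨J, hJ1, hJ⟩ := hGB
  set ε := min 1 η / 8 with hε
  have hm : 0 < min 1 η := lt_min one_pos hη
  have hε0 : 0 < ε := by positivity
  obtain ⟨R₀, hR₀⟩ := Pool.Agent.W280.MO.tail_small E.hδ hε0
  refine ⟨R₀, fun R hR => ?_⟩
  obtain ⟨J', hJ'⟩ := exists_nat_gt (4 / ε)
  refine ⟨max J J', fun j hj M => ?_⟩
  obtain ⟨-, hgu, hgh, -, -, -, -, hsh, hsu⟩ := hJ j ((le_max_left _ _).trans hj)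
  have hj0 : (0 : ℝ) < j := by
    have : 1 ≤ j := hJ1.trans ((le_max_left _ _).trans hj)
    exact_mod_cast this
  have hjε : 4 / (j : ℝ) ≤ ε := by
    have h1 : (J' : ℝ) ≤ j := by exact_mod_cast (le_max_right _ _).trans hj
    have h2 : 4 / ε < j := hJ'.trans_le h1
    rw [div_lt_iff₀ hε0] at h2
    rw [div_le_iff₀ hj0]
    linarith
  set a : ℕ → ℝ := fun p => (1 + 2 * (p * E.g j p)) * (p : ℝ) ^ (-1 - E.δ / 2) with ha
  have hg0 : ∀ p, 0 ≤ E.g j p := fun p => add_nonneg (hgu p) (hgh p)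
  have ha0 : ∀ p, 0 ≤ a p := fun p =>
    mul_nonneg (by have := hg0 p; positivity) (Real.rpow_nonneg (by positivity) _)
  set P : Finset ℕ := (Icc R M).filter Nat.Prime with hP
  -- the sum of the `a p`
  have hsum : ∑ p ∈ P, a p ≤ 2 * ε := by
    have h1 : ∑ p ∈ P, (p : ℝ) ^ (-1 - E.δ / 2) ≤ ε := hR₀ P (fun p hp => by
      rw [hP, mem_filter, mem_Icc] at hp
      exact hR.trans hp.1.1)
    have h2 : ∀ p ∈ P, a p ≤ (p : ℝ) ^ (-1 - E.δ / 2) + 2 * (E.gu j p * (p : ℝ) ^ (-E.δ / 2)) +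
        2 * ((p * E.gh j p) * (p : ℝ) ^ (-1 + E.τ / 4)) := by
      intro p hp
      rw [hP, mem_filter] at hp
      have hp1 : (1 : ℝ) ≤ p := by exact_mod_cast hp.2.one_lt.le
      have hp0 : (0 : ℝ) < p := by linarith
      have e1 : (p : ℝ) * (p : ℝ) ^ (-1 - E.δ / 2) = (p : ℝ) ^ (-E.δ / 2) := by
        nth_rewrite 1 [← Real.rpow_one (p : ℝ)]
        rw [← Real.rpow_add hp0]
        congr 1; ring
      have e2 : (p : ℝ) ^ (-1 - E.δ / 2) ≤ (p : ℝ) ^ (-1 + E.τ / 4) :=
        Real.rpow_le_rpow_of_exponent_le hp1 (by have := E.hδ; have := E.hτ; linarith)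
      have e3 : a p = (p : ℝ) ^ (-1 - E.δ / 2) +
          2 * (E.gu j p * ((p : ℝ) * (p : ℝ) ^ (-1 - E.δ / 2))) +
          2 * ((p * E.gh j p) * (p : ℝ) ^ (-1 - E.δ / 2)) := by
        simp only [ha, Env.g]; ring
      rw [e3, e1]
      have e4 : (p * E.gh j p) * (p : ℝ) ^ (-1 - E.δ / 2) ≤
          (p * E.gh j p) * (p : ℝ) ^ (-1 + E.τ / 4) :=
        mul_le_mul_of_nonneg_left e2 (mul_nonneg hp0.le (hgh p))
      linarith
    refine (Finset.sum_le_sum h2).trans ?_
    rw [Finset.sum_add_distrib, Finset.sum_add_distrib, ← Finset.mul_sum, ← Finset.mul_sum]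
    have h3 := hsu P
    have h4 := hsh P
    have h5 : 4 / (j : ℝ) = 4 * (1 / j) := by ring
    linarith
  have hmin1 : min 1 η ≤ 1 := min_le_left _ _
  have hmin2 : min 1 η ≤ η := min_le_right _ _
  have ha12 : ∀ p ∈ P, a p ≤ 1 / 2 := by
    intro p hp
    have h1 := Finset.single_le_sum (f := a) (fun q _ => ha0 q) hp
    have h2 : 2 * ε ≤ 1 / 2 := by rw [hε]; linarith
    linarith
  -- the terms
  have hterm : ∀ t ∈ (Icc 2 M).filter (fun t => Rough R t),
      E2m E j t / t * (t : ℝ) ^ (-E.δ / 2) = Helper34.CM.cmp a t := by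
    intro t ht
    rw [mem_filter, mem_Icc] at ht
    obtain ⟨⟨ht2, htM⟩, hro⟩ := ht
    have ht0 : (0 : ℝ) < t := by
      have : 0 < t := by omega
      exact_mod_cast this
    have e2 : E2m E j t / t * (t : ℝ) ^ (-E.δ / 2) = E2m E j t * (t : ℝ) ^ (-1 - E.δ / 2) := by
      have e3 : (t : ℝ) ^ (-1 - E.δ / 2) = (t : ℝ)⁻¹ * (t : ℝ) ^ (-E.δ / 2) := by
        rw [← Real.rpow_neg_one, ← Real.rpow_add ht0]
        congr 1; ring
      rw [e3]; ring
    rw [e2, ← cmp_rpow (-1 - E.δ / 2) t (by omega), E2m, ha, cmp_mul_fun]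
  rw [Finset.sum_congr rfl hterm]
  set F := (Icc 2 M).filter (fun t => Rough R t) with hF
  have hmain := sum_le_euler (a := a) (P := P) (F := F)
    (fun p hp => by rw [hP, mem_filter] at hp; exact hp.2) ha0 ha12 (by
      intro t ht
      rw [hF, mem_filter, mem_Icc] at ht
      obtain ⟨⟨ht2, htM⟩, hro⟩ := ht
      refine ⟨ht2, fun p hpp hpd => ?_⟩
      rw [hP, mem_filter, mem_Icc]
      refine ⟨⟨?_, ?_⟩, hpp⟩
      · have := hro p hpp hpd
        exact_mod_cast this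
      · exact (Nat.le_of_dvd (by omega) hpd).trans htM)
  have h4 : ∏ p ∈ P, (1 + 2 * a p) ≤ Real.exp (∑ p ∈ P, 2 * a p) := by
    rw [Real.exp_sum]
    refine Finset.prod_le_prod (fun p _ => by have := ha0 p; positivity) (fun p _ => ?_)
    have := Real.add_one_le_exp (2 * a p)
    linarith
  rw [← Finset.mul_sum] at h4
  have hs0 : 0 ≤ ∑ p ∈ P, a p := Finset.sum_nonneg fun p _ => ha0 p
  have hs1 : 2 * ∑ p ∈ P, a p ≤ 1 := by
    have : 2 * (2 * ε) ≤ 1 := by rw [hε]; linarith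
    linarith
  have hs2 : 0 ≤ 2 * ∑ p ∈ P, a p := by linarith
  have h5 := Real.abs_exp_sub_one_le (x := 2 * ∑ p ∈ P, a p)
    (by rw [abs_of_nonneg hs2]; exact hs1)
  rw [abs_of_nonneg hs2] at h5
  have h6 := (le_abs_self _).trans h5
  have h7 : 2 * (2 * (2 * ε)) ≤ η := by rw [hε]; linarith
  linarith

end Pool.Agent.Helper77.CM
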